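import Pool.Agent.T9h67.MB.Loc

set_option autoImplicit false

open MvPolynomial

namespace Pool.Agent.T9h67.MB

open Pool.Agent.T9h19.MB

/-- size and degree of the deviation polynomials -/
theorem Yp_bd (n μ : ℕ) (i : Fin n) :
    msize (Yp n μ i) ≤ 4 * μ + 1 ∧ (Yp n μ i).totalDegree ≤ 20 := by
  have hlp : ∀ v : Var (Fin n × Fin (2 * μ)) (TL n μ) (TR n μ), Bd 2 2 (Pool.Agent.T9h19.MB.lp v) := by
    intro v
    unfold Pool.Agent.T9h19.MB.lp
    exact (((Bd.X _).mul (Bd.X _)).add ((Bd.X _).mul (Bd.X _))).mono (by omega) (by simp)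
  unfold Yp
  constructor
  · refine (msize_sub _ _).trans (Nat.add_le_add ?_ (msize_C _))
    refine (msize_sum _ _).trans ?_
    calc ∑ k : Fin (2 * μ), msize (Pool.Agent.T9h19.MB.lp (Var.u (i, k)) :
            Pol (Var (Fin n × Fin (2 * μ)) (TL n μ) (TR n μ) × Bool))
        ≤ ∑ _k : Fin (2 * μ), 2 := Finset.sum_le_sum fun k _ => (hlp _).1
      _ = 4 * μ := by
        rw [Finset.sum_const, Finset.card_univ, Fintype.card_fin, smul_eq_mul]
        ring
  · refine (totalDegree_sub _ _).trans (max_le ?_ ?_)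
    · refine totalDegree_finsetSum_le fun k _ => ?_
      exact (hlp _).2.trans (by omega)
    · rw [totalDegree_C]
      omega

end Pool.Agent.T9h67.MB
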