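import Pool.Agent.T9h67.MB.Rules

set_option autoImplicit false
set_option linter.unusedSectionVars false

open MvPolynomial

namespace Pool.Agent.T9h67.MB

open Pool.Agent.T9h19.MB

section
variable {V : Type} [Fintype V] [DecidableEq V]

/-- the indicator of `(v, false) = i` and `(v, true) = i xor c`, so the exclusive or is `c` -/
noncomputable def at2 (v : V) (c i : Bool) : Pol (V × Bool) :=
  X ((v, false), i) * X ((v, true), xor i c)

/-- the indicator of `v = c` -/
noncomputable def ind (v : V) (c : Bool) : Pol (V × Bool) := ∑ i : Bool, at2 v c i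

theorem ind_true (v : V) : ind v true = lp v := by
  simp [ind, at2, Pool.Agent.T9h19.MB.lp]

theorem Bd_at2 (v : V) (c i : Bool) : Bd 1 2 (at2 v c i) :=
  ((Bd.X _).mul (Bd.X _)).mono (by omega) (by omega)

theorem Bd_ind (v : V) (c : Bool) : Bd 2 2 (ind v c) := by
  unfold ind
  rw [Fintype.sum_bool]
  exact ((Bd_at2 v c true).add (Bd_at2 v c false)).mono (by omega) (by simp)

theorem Bd_lp (v : V) : Bd 2 2 (lp v) := by
  rw [← ind_true]
  exact Bd_ind v true

/-- `(x_a + x̄_a) (x_b + x̄_b) - 1` -/
theorem total (G : Finset (Cl (V × Bool))) (v : V) :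
    SD G 3 1 (ind v true + ind v false - 1) := by
  have e : (ind v true + ind v false - 1 : Pol (V × Bool)) =
      (X ((v, true), true) + X ((v, true), false)) * axT (v, false) + axT (v, true) := by
    simp only [ind, at2, axT, Fintype.sum_bool, Bool.xor_true, Bool.xor_false, Bool.not_true,
      Bool.not_false]
    ring
  rw [e]
  exact ((SD.mul ((Bd.X _).add (Bd.X _)) (SD.axT G (v, false))).add
    (SD.axT G (v, true))).mono (by omega) (by simp)

/-! ### translations of the clauses -/

theorem tr_union {W : Type} [DecidableEq W] {A B : Cl W} (h : Disjoint A B) :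
    tr (A ∪ B) = tr A * tr B := by
  unfold tr
  rw [Finset.prod_union h]

theorem tr_pair (v : V) (i c : Bool) :
    tr ({((v, false), !i), ((v, true), !(xor i c))} : Cl (V × Bool)) = at2 v c i := by
  unfold tr at2
  rw [Finset.prod_pair (by simp)]
  simp

theorem liftC_insert (l : V × Bool) (C : Cl V) (β : V → Bool) :
    liftC (insert l C) β =
      {((l.1, false), !(β l.1)), ((l.1, true), !(xor (β l.1) (!l.2)))} ∪ liftC C β := by
  unfold liftC
  rw [Finset.biUnion_insert]

theorem liftC_empty (β : V → Bool) : liftC (∅ : Cl V) β = ∅ := by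
  simp [liftC]

theorem mem_liftC {C : Cl V} {β : V → Bool} {x : (V × Bool) × Bool} (h : x ∈ liftC C β) :
    ∃ l ∈ C, l.1 = x.1.1 := by
  unfold liftC at h
  rw [Finset.mem_biUnion] at h
  obtain ⟨l, hl, hx⟩ := h
  refine ⟨l, hl, ?_⟩
  rw [Finset.mem_insert, Finset.mem_singleton] at hx
  rcases hx with rfl | rfl <;> rfl

theorem tr_liftC_insert (v : V) (c : Bool) (C : Cl V) (β : V → Bool)
    (hC : ∀ l ∈ C, l.1 ≠ v) :
    tr (liftC (insert (v, !c) C) β) = at2 v c (β v) * tr (liftC C β) := by
  rw [liftC_insert, tr_union]
  · congr 1
    have := tr_pair v (β v) c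
    simpa using this
  · rw [Finset.disjoint_left]
    intro x hx hx'
    obtain ⟨l, hl, h⟩ := mem_liftC hx'
    rw [Finset.mem_insert, Finset.mem_singleton] at hx
    apply hC l hl
    rcases hx with rfl | rfl <;> exact h

theorem tr_empty : tr (∅ : Cl (V × Bool)) = 1 := by simp [tr]

theorem forb_cons (v : V) (c : Bool) (s : List (V × Bool)) :
    forb ((v, c) :: s) = insert (v, !c) (forb s) := by
  simp [forb]

theorem forb_nil : forb ([] : List (V × Bool)) = ∅ := by simp [forb]

theorem mem_lift {F : Finset (Cl V)} {C : Cl V} (h : C ∈ F) (β : V → Bool) :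
    liftC C β ∈ lift F := by
  unfold lift
  rw [Finset.mem_image]
  exact ⟨(C, β), by simp [h], rfl⟩

theorem one_ind {F : Finset (Cl V)} {x : V} {a : Bool} (h : forb [(x, a)] ∈ F) :
    SD (lift F) 2 0 (ind x a) := by
  have key : ∀ i, SD (lift F) 1 0 (at2 x a i) := by
    intro i
    have h1 := SD.tr (mem_lift h fun _ => i)
    rw [forb_cons, forb_nil, tr_liftC_insert _ _ _ _ (by simp), liftC_empty, tr_empty, mul_one] at h1
    exact h1
  unfold ind
  rw [Fintype.sum_bool]
  exact ((key true).add (key false)).mono (by omega) (by simp)

theorem two_ind {F : Finset (Cl V)} {x y : V} (hxy : x ≠ y) {a b : Bool}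
    (h : forb [(x, a), (y, b)] ∈ F) : SD (lift F) 4 0 (ind x a * ind y b) := by
  have key : ∀ i j, SD (lift F) 1 0 (at2 x a i * at2 y b j) := by
    intro i j
    have h1 := SD.tr (mem_lift h fun v => if v = x then i else j)
    rw [forb_cons, forb_cons, forb_nil, tr_liftC_insert _ _ _ _ (by simpa using hxy.symm),
      tr_liftC_insert _ _ _ _ (by simp), liftC_empty, tr_empty, mul_one, if_pos rfl,
      if_neg hxy.symm] at h1
    exact h1
  have e : ind x a * ind y b = at2 x a true * at2 y b true + at2 x a true * at2 y b false +
      (at2 x a false * at2 y b true + at2 x a false * at2 y b false) := by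
    unfold ind
    rw [Fintype.sum_bool, Fintype.sum_bool]
    ring
  rw [e]
  exact (((key true true).add (key true false)).add ((key false true).add
    (key false false))).mono (by omega) (by simp)

theorem three_ind {F : Finset (Cl V)} {x y z : V} (hxy : x ≠ y) (hxz : x ≠ z) (hyz : y ≠ z)
    {a b c : Bool} (h : forb [(x, a), (y, b), (z, c)] ∈ F) :
    SD (lift F) 8 0 (ind x a * ind y b * ind z c) := by
  have key : ∀ i j k, SD (lift F) 1 0 (at2 x a i * (at2 y b j * at2 z c k)) := by
    intro i j k
    have h1 := SD.tr (mem_lift h fun v => if v = x then i else if v = y then j else k)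
    rw [forb_cons, forb_cons, forb_cons, forb_nil,
      tr_liftC_insert _ _ _ _ (by simpa using ⟨hxy.symm, hxz.symm⟩),
      tr_liftC_insert _ _ _ _ (by simpa using hyz.symm),
      tr_liftC_insert _ _ _ _ (by simp), liftC_empty, tr_empty, mul_one, if_pos rfl,
      if_neg hxy.symm, if_pos rfl, if_neg hxz.symm, if_neg hyz.symm] at h1
    exact h1
  have e : ind x a * ind y b * ind z c =
      ((at2 x a true * (at2 y b true * at2 z c true) + at2 x a true * (at2 y b true * at2 z c false)) +
      (at2 x a true * (at2 y b false * at2 z c true) + at2 x a true * (at2 y b false * at2 z c false))) +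
      ((at2 x a false * (at2 y b true * at2 z c true) + at2 x a false * (at2 y b true * at2 z c false)) +
      (at2 x a false * (at2 y b false * at2 z c true) +
        at2 x a false * (at2 y b false * at2 z c false))) := by
    unfold ind
    rw [Fintype.sum_bool, Fintype.sum_bool, Fintype.sum_bool]
    ring
  rw [e]
  exact ((((key true true true).add (key true true false)).add
    ((key true false true).add (key true false false))).add
    (((key false true true).add (key false true false)).add
    ((key false false true).add (key false false false)))).mono (by omega) (by simp)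

/-! ### (B1) local derivations -/

theorem stat_bool (F : Finset (Cl V)) (x : V) : Stat (lift F) 100000 (lp x * lp x - lp x) := by
  rw [stat_iff]
  have e : (lp x * lp x - lp x : Pol (V × Bool)) =
      ((X ((x, false), false) - X ((x, false), true)) * (X ((x, true), true) * X ((x, true), true)) +
        C 2 * (X ((x, false), true) * (X ((x, true), true) * X ((x, true), false)))) *
          axT (x, false) +
      (X ((x, true), false) * X ((x, true), false) + X ((x, true), true) * X ((x, true), true) -
        C 2 * (X ((x, true), true) * X ((x, true), false))) * axB (x, false) +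
      (X ((x, false), true) * (X ((x, true), false) - X ((x, true), true))) * axT (x, true) +
      (X ((x, false), true) + X ((x, false), false)) * axB (x, true) := by
    have h2 : (C 2 : Pol (V × Bool)) = 2 := by
      rw [show (2 : ℚ) = 1 + 1 by norm_num, C_add, C_1]
      norm_num
    rw [h2]
    unfold Pool.Agent.T9h19.MB.lp axT axB
    ring
  rw [e]
  have B1 : Bd 4 3 ((X ((x, false), false) - X ((x, false), true)) *
      (X ((x, true), true) * X ((x, true), true)) +
        C 2 * (X ((x, false), true) * (X ((x, true), true) * X ((x, true), false))) :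
          Pol (V × Bool)) :=
    ((((Bd.X _).sub (Bd.X _)).mul ((Bd.X _).mul (Bd.X _))).add
      ((Bd.C 2).mul ((Bd.X _).mul ((Bd.X _).mul (Bd.X _))))).mono (by omega) (by simp)
  have B2 : Bd 3 2 (X ((x, true), false) * X ((x, true), false) +
      X ((x, true), true) * X ((x, true), true) -
        C 2 * (X ((x, true), true) * X ((x, true), false)) : Pol (V × Bool)) :=
    ((((Bd.X _).mul (Bd.X _)).add ((Bd.X _).mul (Bd.X _))).sub
      ((Bd.C 2).mul ((Bd.X _).mul (Bd.X _)))).mono (by omega) (by simp)
  have B3 : Bd 2 2 (X ((x, false), true) * (X ((x, true), false) - X ((x, true), true)) :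
      Pol (V × Bool)) :=
    ((Bd.X _).mul ((Bd.X _).sub (Bd.X _))).mono (by omega) (by simp)
  have B4 : Bd 2 1 (X ((x, false), true) + X ((x, false), false) : Pol (V × Bool)) :=
    ((Bd.X _).add (Bd.X _)).mono (by omega) (by simp)
  exact ((((SD.mul B1 (SD.axT _ _)).add (SD.mul B2 (SD.axB _ _))).add
    (SD.mul B3 (SD.axT _ _))).add (SD.mul B4 (SD.axB _ _))).mono (by omega) (by simp)

theorem stat_true (F : Finset (Cl V)) (x : V) (h : forb [(x, false)] ∈ F) :
    Stat (lift F) 100000 (lp x - 1) := by
  rw [stat_iff, ← ind_true]
  have e : (ind x true - 1 : Pol (V × Bool)) =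
      (ind x true + ind x false - 1) - ind x false := by ring
  rw [e]
  exact ((total _ x).sub (one_ind h)).mono (by omega) (by simp)

theorem stat_false (F : Finset (Cl V)) (x : V) (h : forb [(x, true)] ∈ F) :
    Stat (lift F) 100000 (lp x) := by
  rw [stat_iff, ← ind_true]
  exact (one_ind h).mono (by omega) (by omega)

theorem stat_eq (F : Finset (Cl V)) (x y : V) (hxy : x ≠ y) (h : EQ x y ⊆ F) :
    Stat (lift F) 100000 (lp x - lp y) := by
  rw [stat_iff, ← ind_true, ← ind_true]
  have h1 : forb [(x, true), (y, false)] ∈ F := h (by simp [EQ])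
  have h2 : forb [(x, false), (y, true)] ∈ F := h (by simp [EQ])
  have e : (ind x true - ind y true : Pol (V × Bool)) =
      ind x true * ind y false - ind x false * ind y true -
      ind x true * (ind y true + ind y false - 1) + ind y true * (ind x true + ind x false - 1) := by
    ring
  rw [e]
  exact ((((two_ind hxy h1).sub (two_ind hxy h2)).sub (SD.mul (Bd_ind x true) (total _ y))).add
    (SD.mul (Bd_ind y true) (total _ x))).mono (by omega) (by simp)

/-- `a (X + X') (Y + Y') - a` -/
theorem total2 (G : Finset (Cl (V × Bool))) (x y : V) {a : Pol (V × Bool)} (ha : Bd 4 4 a) :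
    SD G 1000 10 (a * (ind x true + ind x false) * (ind y true + ind y false) - a) := by
  have e : (a * (ind x true + ind x false) * (ind y true + ind y false) - a : Pol (V × Bool)) =
      (a * (ind y true + ind y false)) * (ind x true + ind x false - 1) +
        a * (ind y true + ind y false - 1) := by ring
  rw [e]
  have B1 : Bd 16 6 (a * (ind y true + ind y false)) :=
    (ha.mul ((Bd_ind y true).add (Bd_ind y false))).mono (by omega) (by simp)
  exact ((SD.mul B1 (total G x)).add (SD.mul ha (total G y))).mono (by omega) (by simp)

theorem stat_add (F : Finset (Cl V)) (x y z : V) (hxy : x ≠ y) (hxz : x ≠ z) (hyz : y ≠ z)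
    (h : ADD x y z ⊆ F) : Stat (lift F) 100000 (lp z - lp x - lp y) := by
  rw [stat_iff, ← ind_true, ← ind_true, ← ind_true]
  have h1 := three_ind hxy hxz hyz (h (show forb [(x, true), (y, true), (z, true)] ∈ _ by simp [ADD]))
  have h2 := three_ind hxy hxz hyz (h (show forb [(x, true), (y, true), (z, false)] ∈ _ by simp [ADD]))
  have h3 := three_ind hxy hxz hyz (h (show forb [(x, true), (y, false), (z, false)] ∈ _ by simp [ADD]))
  have h4 := three_ind hxy hxz hyz (h (show forb [(x, false), (y, true), (z, false)] ∈ _ by simp [ADD]))
  have h5 := three_ind hxy hxz hyz (h (show forb [(x, false), (y, false), (z, true)] ∈ _ by simp [ADD]))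
  have b : ∀ v, Bd 4 4 (ind (V := V) v true) := fun v => (Bd_ind v true).mono (by omega) (by omega)
  have t1 := total2 (lift F) x y (b z)
  have t2 := total2 (lift F) y z (b x)
  have t3 := total2 (lift F) x z (b y)
  have e : (ind z true - ind x true - ind y true : Pol (V × Bool)) =
      ind x false * ind y false * ind z true - ind x true * ind y true * ind z true -
      C 2 * (ind x true * ind y true * ind z false) - ind x true * ind y false * ind z false -
      ind x false * ind y true * ind z false -
      (ind z true * (ind x true + ind x false) * (ind y true + ind y false) - ind z true) +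
      (ind x true * (ind y true + ind y false) * (ind z true + ind z false) - ind x true) +
      (ind y true * (ind x true + ind x false) * (ind z true + ind z false) - ind y true) := by
    have h2 : (C 2 : Pol (V × Bool)) = 2 := by
      rw [show (2 : ℚ) = 1 + 1 by norm_num, C_add, C_1]
      norm_num
    rw [h2]
    ring
  rw [e]
  exact (((((((h5.sub h1).sub (SD.mul (Bd.C 2) h2)).sub h3).sub h4).sub t1).add t2).add t3).mono
    (by omega) (by simp)

theorem stat_andn (F : Finset (Cl V)) (x y z : V) (hxy : x ≠ y) (hxz : x ≠ z) (hyz : y ≠ z)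
    (h : ANDN x y z ⊆ F) : Stat (lift F) 100000 (lp z - lp x + lp x * lp y) := by
  rw [stat_iff, ← ind_true, ← ind_true, ← ind_true]
  have h1 := three_ind hxy hxz hyz
    (h (show forb [(x, false), (y, false), (z, true)] ∈ _ by simp [ANDN]))
  have h2 := three_ind hxy hxz hyz
    (h (show forb [(x, false), (y, true), (z, true)] ∈ _ by simp [ANDN]))
  have h3 := three_ind hxy hxz hyz
    (h (show forb [(x, true), (y, true), (z, true)] ∈ _ by simp [ANDN]))
  have h4 := three_ind hxy hxz hyz
    (h (show forb [(x, true), (y, false), (z, false)] ∈ _ by simp [ANDN]))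
  have t1 := total2 (lift F) x y ((Bd_ind z true).mono (show 2 ≤ 4 by omega) (show 2 ≤ 4 by omega))
  have t2 := SD.mul ((Bd_ind x true).mul (Bd_ind y false)) (total (lift F) z)
  have t3 := SD.mul (Bd_ind x true) (total (lift F) y)
  have e : (ind z true - ind x true + ind x true * ind y true : Pol (V × Bool)) =
      ind x true * ind y true * ind z true + ind x false * ind y true * ind z true +
      ind x false * ind y false * ind z true - ind x true * ind y false * ind z false -
      (ind z true * (ind x true + ind x false) * (ind y true + ind y false) - ind z true) +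
      ind x true * ind y false * (ind z true + ind z false - 1) +
      ind x true * (ind y true + ind y false - 1) := by
    ring
  rw [e]
  exact ((((((h3.add h2).add h1).sub h4).sub t1).add t2).add t3).mono (by omega) (by simp)

end

end Pool.Agent.T9h67.MB
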