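import Pool.Agent.T9h19.MB.Defs

set_option autoImplicit false

open MvPolynomial

namespace Pool.Agent.T9h67.MB

open Pool.Agent.T9h19.MB

section
variable {V : Type}

/-! ### sizes -/

theorem msize_zero : msize (0 : Pol V) = 0 := by simp [msize]

theorem msize_C (a : ℚ) : msize (C a : Pol V) ≤ 1 := by
  classical
  unfold msize
  rw [← monomial_zero', support_monomial]
  split_ifs <;> simp

theorem msize_one : msize (1 : Pol V) ≤ 1 := by
  have := msize_C (V := V) 1
  rwa [C_1] at this

theorem msize_X (x : V × Bool) : msize (X x : Pol V) ≤ 1 := by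
  unfold msize
  rw [support_X]
  simp

theorem msize_add (p q : Pol V) : msize (p + q) ≤ msize p + msize q := by
  classical
  exact (Finset.card_le_card support_add).trans (Finset.card_union_le _ _)

theorem msize_neg (p : Pol V) : msize (-p) = msize p := by
  unfold msize
  rw [support_neg]

theorem msize_sub (p q : Pol V) : msize (p - q) ≤ msize p + msize q := by
  rw [sub_eq_add_neg]
  exact (msize_add _ _).trans (by rw [msize_neg])

theorem msize_mul (p q : Pol V) : msize (p * q) ≤ msize p * msize q := by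
  classical
  unfold msize
  refine (Finset.card_le_card (support_mul p q)).trans ?_
  exact Finset.card_add_le

theorem msize_pow (p : Pol V) (k : ℕ) : msize (p ^ k) ≤ msize p ^ k := by
  induction k with
  | zero => simpa using msize_one (V := V)
  | succ k ih =>
    rw [pow_succ, pow_succ]
    exact (msize_mul _ _).trans (Nat.mul_le_mul_right _ ih)

theorem msize_sum {ι : Type} (I : Finset ι) (p : ι → Pol V) :
    msize (∑ i ∈ I, p i) ≤ ∑ i ∈ I, msize (p i) := by
  classical
  induction I using Finset.induction_on with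
  | empty => simp [msize_zero]
  | insert i I hi ih =>
    rw [Finset.sum_insert hi, Finset.sum_insert hi]
    exact (msize_add _ _).trans (Nat.add_le_add_left ih _)

theorem msize_Cmul (a : ℚ) (p : Pol V) : msize (C a * p) ≤ msize p := by
  refine (msize_mul _ _).trans ?_
  calc msize (C a : Pol V) * msize p ≤ 1 * msize p := Nat.mul_le_mul_right _ (msize_C a)
    _ = msize p := one_mul _

theorem deg_Cmul (a : ℚ) (p : Pol V) : (C a * p).totalDegree ≤ p.totalDegree := by
  refine (totalDegree_mul _ _).trans ?_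
  rw [totalDegree_C, zero_add]

/-- at most `k` monomials, of degree at most `d` -/
def Bd (k d : ℕ) (p : Pol V) : Prop := msize p ≤ k ∧ p.totalDegree ≤ d

theorem Bd.X (x : V × Bool) : Bd 1 1 (X x : Pol V) :=
  ⟨msize_X x, (totalDegree_X x).le⟩

theorem Bd.C (a : ℚ) : Bd 1 0 (C a : Pol V) := ⟨msize_C a, (totalDegree_C a).le⟩

theorem Bd.one : Bd 1 0 (1 : Pol V) := by
  have := Bd.C (V := V) 1
  rwa [C_1] at this

theorem Bd.add {k k' d d' : ℕ} {p q : Pol V} (h : Bd k d p) (h' : Bd k' d' q) :
    Bd (k + k') (max d d') (p + q) :=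
  ⟨(msize_add _ _).trans (Nat.add_le_add h.1 h'.1),
    (totalDegree_add _ _).trans (max_le_max h.2 h'.2)⟩

theorem Bd.sub {k k' d d' : ℕ} {p q : Pol V} (h : Bd k d p) (h' : Bd k' d' q) :
    Bd (k + k') (max d d') (p - q) :=
  ⟨(msize_sub _ _).trans (Nat.add_le_add h.1 h'.1),
    (totalDegree_sub _ _).trans (max_le_max h.2 h'.2)⟩

theorem Bd.neg {k d : ℕ} {p : Pol V} (h : Bd k d p) : Bd k d (-p) :=
  ⟨(msize_neg p).le.trans h.1, (totalDegree_neg p).le.trans h.2⟩

theorem Bd.mul {k k' d d' : ℕ} {p q : Pol V} (h : Bd k d p) (h' : Bd k' d' q) :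
    Bd (k * k') (d + d') (p * q) :=
  ⟨(msize_mul _ _).trans (Nat.mul_le_mul h.1 h'.1),
    (totalDegree_mul _ _).trans (Nat.add_le_add h.2 h'.2)⟩

theorem Bd.mono {k k' d d' : ℕ} {p : Pol V} (h : Bd k d p) (hk : k ≤ k') (hd : d ≤ d') :
    Bd k' d' p := ⟨h.1.trans hk, h.2.trans hd⟩

end

section
variable {V : Type} [Fintype V]

/-- combinations with at most `s` monomials, of degree at most `d` -/
def SD (G : Finset (Cl V)) (s d : ℕ) (p : Pol V) : Prop :=
  ∃ (t : Cl V → Pol V) (u w : V → Pol V),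
    p = ∑ C ∈ G, t C * tr C + ∑ v, (u v * axB v + w v * axT v) ∧
    ∑ C ∈ G, msize (t C) + ∑ v, (msize (u v) + msize (w v)) ≤ s ∧
    (∀ C, (t C).totalDegree ≤ d) ∧ ∀ v, (u v).totalDegree ≤ d ∧ (w v).totalDegree ≤ d

theorem stat_iff (G : Finset (Cl V)) (s : ℕ) (p : Pol V) : Stat G s p ↔ SD G s 20 p := Iff.rfl

theorem SD.mono {G : Finset (Cl V)} {s s' d d' : ℕ} {p : Pol V} (h : SD G s d p) (hs : s ≤ s')
    (hd : d ≤ d') : SD G s' d' p := by
  obtain ⟨t, u, w, h1, h2, h3, h4⟩ := h
  exact ⟨t, u, w, h1, h2.trans hs, fun C => (h3 C).trans hd,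
    fun v => ⟨(h4 v).1.trans hd, (h4 v).2.trans hd⟩⟩

theorem SD.zero (G : Finset (Cl V)) : SD G 0 0 (0 : Pol V) :=
  ⟨fun _ => 0, fun _ => 0, fun _ => 0, by simp, by simp [msize_zero], fun _ => by simp,
    fun _ => by simp⟩

theorem SD.add {G : Finset (Cl V)} {s s' d d' : ℕ} {p p' : Pol V} (h : SD G s d p)
    (h' : SD G s' d' p') : SD G (s + s') (max d d') (p + p') := by
  obtain ⟨t, u, w, h1, h2, h3, h4⟩ := h
  obtain ⟨t', u', w', h1', h2', h3', h4'⟩ := h'
  refine ⟨fun C => t C + t' C, fun v => u v + u' v, fun v => w v + w' v, ?_, ?_, ?_, ?_⟩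
  · rw [h1, h1']
    have e1 : ∑ C ∈ G, (t C + t' C) * tr C = ∑ C ∈ G, t C * tr C + ∑ C ∈ G, t' C * tr C := by
      rw [← Finset.sum_add_distrib]
      exact Finset.sum_congr rfl fun C _ => by ring
    have e2 : ∑ v, ((u v + u' v) * axB v + (w v + w' v) * axT v) =
        ∑ v, (u v * axB v + w v * axT v) + ∑ v, (u' v * axB v + w' v * axT v) := by
      rw [← Finset.sum_add_distrib]
      exact Finset.sum_congr rfl fun v _ => by ring
    rw [e1, e2]
    ring
  · have e1 : ∑ C ∈ G, msize (t C + t' C) ≤ ∑ C ∈ G, msize (t C) + ∑ C ∈ G, msize (t' C) := by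
      rw [← Finset.sum_add_distrib]
      exact Finset.sum_le_sum fun C _ => msize_add _ _
    have e2 : ∑ v, (msize (u v + u' v) + msize (w v + w' v)) ≤
        ∑ v, (msize (u v) + msize (w v)) + ∑ v, (msize (u' v) + msize (w' v)) := by
      rw [← Finset.sum_add_distrib]
      refine Finset.sum_le_sum fun v _ => ?_
      have := msize_add (u v) (u' v)
      have := msize_add (w v) (w' v)
      omega
    beta_reduce
    omega
  · exact fun C => (totalDegree_add _ _).trans (max_le_max (h3 C) (h3' C))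
  · exact fun v => ⟨(totalDegree_add _ _).trans (max_le_max (h4 v).1 (h4' v).1),
      (totalDegree_add _ _).trans (max_le_max (h4 v).2 (h4' v).2)⟩

theorem SD.mul {G : Finset (Cl V)} {s d k e : ℕ} {p q : Pol V} (hq : Bd k e q)
    (h : SD G s d p) : SD G (k * s) (e + d) (q * p) := by
  obtain ⟨t, u, w, h1, h2, h3, h4⟩ := h
  refine ⟨fun C => q * t C, fun v => q * u v, fun v => q * w v, ?_, ?_, ?_, ?_⟩
  · rw [h1, mul_add, Finset.mul_sum, Finset.mul_sum]
    congr 1
    · exact Finset.sum_congr rfl fun C _ => by ring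
    · exact Finset.sum_congr rfl fun v _ => by ring
  · have e1 : ∑ C ∈ G, msize (q * t C) ≤ k * ∑ C ∈ G, msize (t C) := by
      rw [Finset.mul_sum]
      exact Finset.sum_le_sum fun C _ => (msize_mul _ _).trans (Nat.mul_le_mul_right _ hq.1)
    have e2 : ∑ v, (msize (q * u v) + msize (q * w v)) ≤
        k * ∑ v, (msize (u v) + msize (w v)) := by
      rw [Finset.mul_sum]
      refine Finset.sum_le_sum fun v _ => ?_
      rw [Nat.mul_add]
      exact Nat.add_le_add ((msize_mul _ _).trans (Nat.mul_le_mul_right _ hq.1))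
        ((msize_mul _ _).trans (Nat.mul_le_mul_right _ hq.1))
    calc _ ≤ k * ∑ C ∈ G, msize (t C) + k * ∑ v, (msize (u v) + msize (w v)) :=
          Nat.add_le_add e1 e2
      _ = k * (∑ C ∈ G, msize (t C) + ∑ v, (msize (u v) + msize (w v))) := by rw [Nat.mul_add]
      _ ≤ k * s := Nat.mul_le_mul_left _ h2
  · exact fun C => (totalDegree_mul _ _).trans (Nat.add_le_add hq.2 (h3 C))
  · exact fun v => ⟨(totalDegree_mul _ _).trans (Nat.add_le_add hq.2 (h4 v).1),
      (totalDegree_mul _ _).trans (Nat.add_le_add hq.2 (h4 v).2)⟩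

theorem SD.neg {G : Finset (Cl V)} {s d : ℕ} {p : Pol V} (h : SD G s d p) : SD G s d (-p) := by
  have h1 := SD.mul (Bd.neg (Bd.one (V := V))) h
  rw [neg_one_mul] at h1
  exact h1.mono (by omega) (by omega)

theorem SD.sub {G : Finset (Cl V)} {s s' d d' : ℕ} {p p' : Pol V} (h : SD G s d p)
    (h' : SD G s' d' p') : SD G (s + s') (max d d') (p - p') := by
  rw [sub_eq_add_neg]
  exact h.add h'.neg

theorem SD.tr {G : Finset (Cl V)} {C : Cl V} (h : C ∈ G) : SD G 1 0 (tr C) := by
  classical
  refine ⟨fun D => if D = C then 1 else 0, fun _ => 0, fun _ => 0, ?_, ?_, ?_, ?_⟩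
  · beta_reduce
    rw [Finset.sum_eq_single C]
    · simp
    · intro D _ hD
      rw [if_neg hD, zero_mul]
    · exact fun h' => absurd h h'
  · beta_reduce
    rw [Finset.sum_eq_single C]
    · rw [if_pos rfl]
      simpa [msize_zero] using msize_one (V := V)
    · intro D _ hD
      rw [if_neg hD, msize_zero]
    · exact fun h' => absurd h h'
  · intro D
    beta_reduce
    split_ifs <;> simp
  · intro v
    simp

theorem SD.axB (G : Finset (Cl V)) (v : V) : SD G 1 0 (axB v) := by
  classical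
  refine ⟨fun _ => 0, fun x => if x = v then 1 else 0, fun _ => 0, ?_, ?_, ?_, ?_⟩
  · beta_reduce
    rw [Finset.sum_eq_single v]
    · simp
    · intro D _ hD
      simp [hD]
    · simp
  · beta_reduce
    rw [Finset.sum_eq_single v]
    · rw [if_pos rfl]
      simpa [msize_zero] using msize_one (V := V)
    · intro D _ hD
      rw [if_neg hD, msize_zero, add_zero]
    · simp
  · intro D
    simp
  · intro x
    refine ⟨?_, by simp⟩
    simp only
    split_ifs <;> simp

theorem SD.axT (G : Finset (Cl V)) (v : V) : SD G 1 0 (axT v) := by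
  classical
  refine ⟨fun _ => 0, fun _ => 0, fun x => if x = v then 1 else 0, ?_, ?_, ?_, ?_⟩
  · beta_reduce
    rw [Finset.sum_eq_single v]
    · simp
    · intro D _ hD
      simp [hD]
    · simp
  · beta_reduce
    rw [Finset.sum_eq_single v]
    · rw [if_pos rfl]
      simpa [msize_zero] using msize_one (V := V)
    · intro D _ hD
      rw [if_neg hD, msize_zero, add_zero]
    · simp
  · intro D
    simp
  · intro x
    refine ⟨by simp, ?_⟩
    simp only
    split_ifs <;> simp

/-! ### (B1') the rules for `Stat` -/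

theorem Stat.zero (G : Finset (Cl V)) : Stat G 0 (0 : Pol V) :=
  (stat_iff _ _ _).2 ((SD.zero G).mono le_rfl (by omega))

theorem Stat.mono {G : Finset (Cl V)} {s s' : ℕ} {p : Pol V} (h : Stat G s p) (hs : s ≤ s') :
    Stat G s' p := (stat_iff _ _ _).2 (((stat_iff _ _ _).1 h).mono hs le_rfl)

theorem Stat.add {G : Finset (Cl V)} {s s' : ℕ} {p p' : Pol V} (h : Stat G s p)
    (h' : Stat G s' p') : Stat G (s + s') (p + p') :=
  (stat_iff _ _ _).2 ((((stat_iff _ _ _).1 h).add ((stat_iff _ _ _).1 h')).mono le_rfl (by simp))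

theorem Stat.smul {G : Finset (Cl V)} {s : ℕ} {p : Pol V} (a : ℚ) (h : Stat G s p) :
    Stat G s (C a * p) :=
  (stat_iff _ _ _).2 ((SD.mul (Bd.C a) ((stat_iff _ _ _).1 h)).mono (by omega) (by omega))

theorem Stat.sum {G : Finset (Cl V)} {ι : Type} (I : Finset ι) {s : ℕ} {p : ι → Pol V}
    (h : ∀ i ∈ I, Stat G s (p i)) : Stat G (I.card * s) (∑ i ∈ I, p i) := by
  classical
  induction I using Finset.induction_on with
  | empty => simpa using Stat.zero G
  | insert i I hi ih =>
    rw [Finset.sum_insert hi, Finset.card_insert_of_notMem hi]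
    have h1 := Stat.add (h i (Finset.mem_insert_self _ _))
      (ih fun j hj => h j (Finset.mem_insert_of_mem hj))
    refine Stat.mono h1 ?_
    rw [Nat.add_mul, one_mul, Nat.add_comm]

end

end Pool.Agent.T9h67.MB
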